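import Pool.Agent.N353.HVec.Poly
import Pool.Agent.N353.Roots.Rel

set_option autoImplicit false

namespace Pool.Agent.N353.HVec

open Finset Pool.Agent.Helper46 Pool.Agent.Helper46.A Pool.Agent.Helper46.A.F
  Pool.Agent.N353.Star Pool.Agent.N353.Roots Polynomial

/-- upper bound for the number of bases with internal activity `i` -/
theorem up {n r i : ℕ} (hi : i < r) (hrn : r ≤ n) {F : Fam n} (hF : IsBF r F) :
    (F.filter (fun B => (act F B).card = i)).card ≤ (n - 1 - i).choose (r - i) := by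
  have h := upper (n := n) n r F le_rfl (fun B _ x _ => by
    unfold seg
    rw [mem_filter]
    exact ⟨mem_univ _, x.2⟩) hF.card hF.exch (r - i)
  unfold bd at h
  rw [if_neg (by omega)] at h
  have e : n - r + (r - i) - 1 = n - 1 - i := by omega
  rw [e] at h
  refine le_trans (le_of_eq ?_) h
  congr 1
  apply filter_congr
  intro B _
  omega

/-- the top level: `t_r ≤ 1` -/
theorem up_top {n r : ℕ} {F : Fam n} (hF : IsBF r F) :
    (F.filter (fun B => (act F B).card = r)).card ≤ 1 := by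
  have h := upper (n := n) n r F le_rfl (fun B _ x _ => by
    unfold seg
    rw [mem_filter]
    exact ⟨mem_univ _, x.2⟩) hF.card hF.exch 0
  unfold bd at h
  rw [if_pos rfl] at h
  exact h

open Classical in
/-- lower bound for the number of bases with internal activity `i` -/
theorem low {n r i : ℕ} (hi : i ≤ r) (hrn : r < n) {F : Fam n} (hF : IsBF r F) {ε : ℝ}
    (hNB : (((powersetCard r (univ : Finset (Fin n))) \ F).card : ℝ) ≤ ε * (n.choose r : ℝ)) :
    ((n - 1 - i).choose (r - i) : ℝ) ≤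
      ((F.filter (fun B => (act F B).card = i)).card : ℝ) + ε * ((n - i).choose (r - i) : ℝ) := by
  obtain ⟨σ, hσ⟩ := exists_rl (r := r) (i := i) (by omega) F
  have h1 := lower (n := n) (r := r) (i := i) (by omega) hi (rl σ F) (isBF_rl hF σ).card
  rw [count_rl hF σ hi] at h1
  set P := (((powersetCard r (univ : Finset (Fin n))) \ rl σ F).filter (fun X => seg n i ⊆ X)).card
    with hP
  have h2 : (P : ℝ) ≤ ε * ((n - i).choose (r - i) : ℝ) := by
    have hpos : (0 : ℝ) < n.choose i := by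
      have : 0 < n.choose i := Nat.choose_pos (by omega)
      exact_mod_cast this
    have h3 : (P : ℝ) * (n.choose i : ℝ) ≤
        (((powersetCard r (univ : Finset (Fin n))) \ F).card : ℝ) * (r.choose i : ℝ) := by
      exact_mod_cast hσ
    have h4 : (n.choose r : ℝ) * (r.choose i : ℝ) =
        (n.choose i : ℝ) * ((n - i).choose (r - i) : ℝ) := by
      exact_mod_cast Nat.choose_mul (n := n) (k := r) (s := i) hi
    have h5 : (0 : ℝ) ≤ (r.choose i : ℝ) := by positivity
    have h6 : (n.choose i : ℝ) * (P : ℝ) ≤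
        (n.choose i : ℝ) * (ε * ((n - i).choose (r - i) : ℝ)) := by
      calc (n.choose i : ℝ) * (P : ℝ) = (P : ℝ) * (n.choose i : ℝ) := mul_comm _ _
        _ ≤ (((powersetCard r (univ : Finset (Fin n))) \ F).card : ℝ) * (r.choose i : ℝ) := h3
        _ ≤ (ε * (n.choose r : ℝ)) * (r.choose i : ℝ) := mul_le_mul_of_nonneg_right hNB h5
        _ = ε * ((n.choose r : ℝ) * (r.choose i : ℝ)) := by ring
        _ = _ := by rw [h4]; ring
    exact le_of_mul_le_mul_left h6 hpos
  have h7 : ((n - 1 - i).choose (r - i) : ℝ) ≤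
      ((F.filter (fun B => (act F B).card = i)).card : ℝ) + (P : ℝ) := by
    exact_mod_cast h1
  linarith

theorem ratio_i {n r i : ℕ} (hi : i ≤ r) (hn : 64 ≤ n) (h : 8 * r ≤ 7 * n) :
    ((n - i).choose (r - i) : ℝ) ≤ 8 * ((n - 1 - i).choose (r - i) : ℝ) := by
  obtain ⟨m, hm⟩ : ∃ m, n - i = m + 1 := ⟨n - i - 1, by omega⟩
  obtain ⟨s, hs⟩ : ∃ s, r - i = s := ⟨_, rfl⟩
  have e : n - 1 - i = m := by omega
  rw [hm, hs, e]
  have h1 := Nat.choose_mul_succ_eq m s
  have hsm : s ≤ m + 1 := by omega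
  have h1' : (m.choose s : ℝ) * ((m : ℝ) + 1) = ((m + 1).choose s : ℝ) * ((m : ℝ) + 1 - s) := by
    have e : ((m + 1 - s : ℕ) : ℝ) = (m : ℝ) + 1 - s := by
      rw [Nat.cast_sub hsm]; push_cast; ring
    rw [← e]
    exact_mod_cast h1
  have h2 : 8 * s ≤ 7 * (m + 1) := by omega
  have h2' : 8 * (s : ℝ) ≤ 7 * ((m : ℝ) + 1) := by exact_mod_cast h2
  have h3 : (0 : ℝ) < (m : ℝ) + 1 := by positivity
  have h4 : ((m : ℝ) + 1) * ((m + 1).choose s : ℝ) ≤ ((m : ℝ) + 1) * (8 * (m.choose s : ℝ)) := by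
    have h5 : (0 : ℝ) ≤ ((m + 1).choose s : ℝ) := by positivity
    nlinarith
  exact le_of_mul_le_mul_left h4 h3

open Classical in
/-- the numbers of bases with given internal activity are strictly decreasing -/
theorem decr {n r i : ℕ} (hn : 400 ≤ n) (hr2 : 8 * r ≤ 7 * n) (hi : i < r) {F : Fam n}
    (hF : IsBF r F)
    (hNB : (((powersetCard r (univ : Finset (Fin n))) \ F).card : ℝ) ≤
      1 / 30000 * (n.choose r : ℝ)) :
    (F.filter (fun B => (act F B).card = i + 1)).card <
      (F.filter (fun B => (act F B).card = i)).card := by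
  have h1 : (((F.filter (fun B => (act F B).card = i + 1)).card : ℕ) : ℝ) ≤
      ((n - 1 - (i + 1)).choose (r - (i + 1)) : ℝ) := by
    by_cases h : i + 1 < r
    · exact_mod_cast up h (by omega) hF
    · have h' : i + 1 = r := by omega
      rw [h', Nat.sub_self, Nat.choose_zero_right]
      exact_mod_cast up_top hF
  have h2 := low (i := i) hi.le (by omega) hF hNB
  have h3 := ratio_i (i := i) hi.le (by omega) hr2
  have h4 := a_step (i := i) hr2 (by omega) (by omega)
  have h5 : (0 : ℝ) < ((n - 1 - i).choose (r - i) : ℝ) := by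
    have : 0 < (n - 1 - i).choose (r - i) := Nat.choose_pos (by omega)
    exact_mod_cast this
  have h6 : (((F.filter (fun B => (act F B).card = i + 1)).card : ℕ) : ℝ) <
      (((F.filter (fun B => (act F B).card = i)).card : ℕ) : ℝ) := by
    linarith
  exact_mod_cast h6

open Classical in
theorem numIndep_eq {n : ℕ} (M : Matroid (Fin n)) (F : Fam n)
    (hI : ∀ I : Finset (Fin n), M.Indep (I : Set (Fin n)) ↔ indep F I) (i : ℕ) :
    Nat.card {I : Finset (Fin n) // M.Indep (I : Set (Fin n)) ∧ I.card = i} =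
      ((univ : Finset (Finset (Fin n))).filter (fun I => indep F I ∧ I.card = i)).card := by
  rw [Nat.card_eq_fintype_card, Fintype.card_subtype]
  congr 1
  ext X
  rw [mem_filter, mem_filter, hI]

theorem hvec_good {n r : ℕ} (hn : 400 ≤ n) (M : Lab n)
    (hB : IsBF r (bs_22726 M.1)) (hG : Good n r (1 / 30000) (bs_22726 M.1)) {k : ℕ} (hk : k < r) :
    (∑ i ∈ range (r + 1),
      C ((Nat.card {I : Finset (Fin n) // M.1.Indep (I : Set (Fin n)) ∧ I.card = i} : ℕ) : ℤ) *
        (X : ℤ[X]) ^ i * (1 - X) ^ (r - i)).coeff k <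
    (∑ i ∈ range (r + 1),
      C ((Nat.card {I : Finset (Fin n) // M.1.Indep (I : Set (Fin n)) ∧ I.card = i} : ℕ) : ℤ) *
        (X : ℤ[X]) ^ i * (1 - X) ^ (r - i)).coeff (k + 1) := by
  classical
  have hI : ∀ I : Finset (Fin n), M.1.Indep (I : Set (Fin n)) ↔ indep (bs_22726 M.1) I :=
    indep_iff hB M.2 (fun X => (mem_bs_22726 M.1 X).symm)
  simp only [numIndep_eq M.1 (bs_22726 M.1) hI]
  rw [poly_num hB, coeff_act hB hk.le, coeff_act hB hk]
  have h := decr (i := r - (k + 1)) hn hG.2.1 (by omega) hB hG.2.2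
  have e : r - (k + 1) + 1 = r - k := by omega
  rw [e] at h
  exact_mod_cast h

theorem rank_eq {n r : ℕ} (M : Lab n) (hB : IsBF r (bs_22726 M.1)) : M.1.eRank.toNat = r := by
  obtain ⟨X, hX⟩ := hB.ne
  have h := (mem_bs_22726 M.1 X).1 hX
  rw [← h.encard_eq_eRank, Set.encard_coe_eq_coe_finsetCard, hB.card X hX]
  rfl

end Pool.Agent.N353.HVec
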