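import Pool.Agent.N353.Roots.Count

set_option autoImplicit false

namespace Pool.Agent.N353.HVec

open Finset Pool.Agent.Helper46.A Pool.Agent.N353.Roots

open Classical in
/-- bases with initial segment `i` and larger activity give nonbases containing the first
`i + 1` elements -/
theorem diff_i {n r i : ℕ} (hi : i < n) (F : Fam n) (hF : ∀ X ∈ F, X.card = r) :
    (F.filter (fun B => ini B = i ∧ (act F B).card ≠ i)).card ≤
      (((powersetCard r (univ : Finset (Fin n))) \ F).filter (fun X => seg n (i + 1) ⊆ X)).card := by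
  have hex : ∀ B : Finset (Fin n), ∃ b : Fin n, (B ∈ F ∧ ini B = i ∧ (act F B).card ≠ i) →
      b ∈ act F B ∧ i < b.val := by
    intro B
    by_cases hB : B ∈ F ∧ ini B = i ∧ (act F B).card ≠ i
    · obtain ⟨hB1, hB2, hB3⟩ := hB
      subst hB2
      have hsub : seg n (ini B) ⊆ act F B := by
        intro x hx
        unfold seg at hx
        rw [mem_filter] at hx
        rw [mem_act]
        refine ⟨lt_ini hx.2, fun y hy hyB => ?_⟩
        have h1 : y.val < x.val := hy
        exact absurd (lt_ini (by omega)) hyB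
      have hne : ¬ act F B ⊆ seg n (ini B) := by
        intro h
        apply hB3
        rw [Finset.Subset.antisymm h hsub, seg_card hi.le]
      rw [not_subset] at hne
      obtain ⟨b, hb, hb2⟩ := hne
      refine ⟨b, fun _ => ⟨hb, ?_⟩⟩
      unfold seg at hb2
      rw [mem_filter, not_and] at hb2
      have h1 := hb2 (mem_univ _)
      have h2 : b.val ≠ ini B := by
        intro h
        have h3 : b = ⟨ini B, hi⟩ := Fin.ext h
        exact ini_notMem hi (h3 ▸ act_subset hb)
      omega
    · exact ⟨⟨i, hi⟩, fun h => absurd h hB⟩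
  choose b hb using hex
  refine card_le_card_of_injOn (fun B => insert (⟨i, hi⟩ : Fin n) (B.erase (b B))) ?_ ?_
  · intro B hB
    rw [mem_coe, mem_filter] at hB
    obtain ⟨h1, h2⟩ := hb B hB
    have hnot : (⟨i, hi⟩ : Fin n) ∉ B := by
      have h3 := hB.2.1
      subst h3
      exact ini_notMem hi
    rw [mem_coe, mem_filter, Finset.mem_sdiff, mem_powersetCard]
    refine ⟨⟨⟨subset_univ _, ?_⟩, (mem_act.1 h1).2 _ h2 hnot⟩, ?_⟩
    · rw [card_insert_of_notMem (fun h => hnot (mem_of_mem_erase h)),
        card_erase_of_mem (act_subset h1)]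
      have := card_pos.2 ⟨b B, act_subset h1⟩
      rw [hF B hB.1] at this ⊢
      omega
    · intro x hx
      unfold seg at hx
      rw [mem_filter] at hx
      rw [mem_insert]
      by_cases hxi : x.val = i
      · exact Or.inl (Fin.ext hxi)
      · right
        have hxi2 : x.val < ini B := by
          rw [hB.2.1]
          omega
        rw [mem_erase]
        refine ⟨fun h => ?_, lt_ini hxi2⟩
        rw [← h] at h2
        omega
  · intro B hB B' hB' heq
    rw [mem_coe, mem_filter] at hB hB'
    obtain ⟨h1, h2⟩ := hb B hB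
    obtain ⟨h1', h2'⟩ := hb B' hB'
    have hnot : (⟨i, hi⟩ : Fin n) ∉ B := by
      have h3 := hB.2.1
      subst h3
      exact ini_notMem hi
    have hnot' : (⟨i, hi⟩ : Fin n) ∉ B' := by
      have h3 := hB'.2.1
      subst h3
      exact ini_notMem hi
    simp only at heq
    have hE : B.erase (b B) = B'.erase (b B') := by
      have h3 := congrArg (fun S => S.erase (⟨i, hi⟩ : Fin n)) heq
      rwa [erase_insert (fun h => hnot (mem_of_mem_erase h)),
        erase_insert (fun h => hnot' (mem_of_mem_erase h))] at h3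
    have hBe : insert (b B) (B.erase (b B)) = B := insert_erase (act_subset h1)
    have hBe' : insert (b B') (B'.erase (b B')) = B' := insert_erase (act_subset h1')
    rcases lt_trichotomy (b B) (b B') with h | h | h
    · exfalso
      have hn1 : b B ∉ B' := by
        rw [← hBe', ← hE, mem_insert, mem_erase, not_or]
        exact ⟨h.ne, fun h => h.1 rfl⟩
      apply (mem_act.1 h1').2 (b B) h hn1
      rw [← hE, hBe]
      exact hB.1
    · rw [← hBe, ← hBe', hE, h]
    · exfalso
      have hn1 : b B' ∉ B := by
        rw [← hBe, hE, mem_insert, mem_erase, not_or]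
        exact ⟨h.ne, fun h => h.1 rfl⟩
      apply (mem_act.1 h1).2 (b B') h hn1
      rw [hE, hBe']
      exact hB'.1

open Classical in
theorem lower {n r i : ℕ} (hi : i < n) (hir : i ≤ r) (F : Fam n) (hF : ∀ X ∈ F, X.card = r) :
    (n - 1 - i).choose (r - i) ≤ (F.filter (fun B => (act F B).card = i)).card +
      (((powersetCard r (univ : Finset (Fin n))) \ F).filter (fun X => seg n i ⊆ X)).card := by
  rw [← count_ini (n := n) (r := r) hi hir]
  set V := powersetCard r (univ : Finset (Fin n)) with hV
  have h1 : V.filter (fun X => ini X = i) ⊆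
      (F.filter (fun B => (act F B).card = i)) ∪
        ((F.filter (fun B => ini B = i ∧ (act F B).card ≠ i)) ∪
          ((V \ F).filter (fun X => ini X = i))) := by
    intro X hX
    rw [mem_filter] at hX
    rw [mem_union, mem_union, mem_filter, mem_filter, mem_filter, Finset.mem_sdiff]
    by_cases hXF : X ∈ F
    · by_cases ha : (act F X).card = i
      · exact Or.inl ⟨hXF, ha⟩
      · exact Or.inr (Or.inl ⟨hXF, hX.2, ha⟩)
    · exact Or.inr (Or.inr ⟨⟨hX.1, hXF⟩, hX.2⟩)
  have h2 := card_le_card h1
  have h3 := card_union_le (F.filter (fun B => (act F B).card = i))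
    ((F.filter (fun B => ini B = i ∧ (act F B).card ≠ i)) ∪ ((V \ F).filter (fun X => ini X = i)))
  have h4 := card_union_le (F.filter (fun B => ini B = i ∧ (act F B).card ≠ i))
    ((V \ F).filter (fun X => ini X = i))
  have h5 := diff_i hi F hF
  rw [← hV] at h5
  have h6 : ((V \ F).filter (fun X => seg n (i + 1) ⊆ X)).card +
      ((V \ F).filter (fun X => ini X = i)).card ≤ ((V \ F).filter (fun X => seg n i ⊆ X)).card := by
    rw [← card_union_of_disjoint]
    · apply card_le_card
      intro X hX
      rw [mem_union, mem_filter, mem_filter] at hX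
      rw [mem_filter]
      rcases hX with ⟨h, h'⟩ | ⟨h, h'⟩
      · refine ⟨h, fun x hx => h' ?_⟩
        unfold seg at hx ⊢
        rw [mem_filter] at hx ⊢
        exact ⟨hx.1, by omega⟩
      · exact ⟨h, (le_ini_iff hi.le).1 h'.ge⟩
    · rw [Finset.disjoint_left]
      intro X hX hX'
      rw [mem_filter] at hX hX'
      have h7 := (le_ini_iff (n := n) (i := i + 1) (by omega)).2 hX.2
      omega
  omega

open Classical in
/-- some `i`-set is contained in few members of a family -/
theorem avg {n r i : ℕ} (hi : i ≤ n) (N : Fam n) (hN : ∀ X ∈ N, X.card = r) :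
    ∃ A : Finset (Fin n), A.card = i ∧
      (N.filter (fun X => A ⊆ X)).card * n.choose i ≤ N.card * r.choose i := by
  by_contra hcon
  push Not at hcon
  have h1 : ∑ A ∈ powersetCard i (univ : Finset (Fin n)), (N.filter (fun X => A ⊆ X)).card =
      N.card * r.choose i := by
    simp only [card_filter]
    rw [sum_comm]
    have h2 : ∀ X ∈ N, (∑ A ∈ powersetCard i (univ : Finset (Fin n)), if A ⊆ X then 1 else 0) =
        r.choose i := by
      intro X hX
      rw [← card_filter]
      have h3 : (powersetCard i (univ : Finset (Fin n))).filter (fun A => A ⊆ X) =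
          powersetCard i X := by
        ext A
        rw [mem_filter, mem_powersetCard, mem_powersetCard]
        exact ⟨fun h => ⟨h.2, h.1.2⟩, fun h => ⟨⟨subset_univ _, h.2⟩, h.1⟩⟩
      rw [h3, card_powersetCard, hN X hX]
    rw [sum_congr rfl h2, sum_const, smul_eq_mul]
  have hne : (powersetCard i (univ : Finset (Fin n))).Nonempty := by
    rw [powersetCard_nonempty, card_univ, Fintype.card_fin]
    exact hi
  have h2 : ∑ A ∈ powersetCard i (univ : Finset (Fin n)), N.card * r.choose i <
      ∑ A ∈ powersetCard i (univ : Finset (Fin n)),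
        (N.filter (fun X => A ⊆ X)).card * n.choose i := by
    apply sum_lt_sum_of_nonempty hne
    intro A hA
    rw [mem_powersetCard] at hA
    exact hcon A hA.2
  rw [← sum_mul _ _ (n.choose i), h1, sum_const, smul_eq_mul, card_powersetCard, card_univ,
    Fintype.card_fin, Nat.mul_comm] at h2
  exact lt_irrefl _ h2

/-- relabelling -/
def rl {n : ℕ} (σ : Equiv.Perm (Fin n)) (F : Fam n) : Fam n := F.image (fun B => B.map σ.toEmbedding)

theorem mem_rl {n : ℕ} {σ : Equiv.Perm (Fin n)} {F : Fam n} {B : Finset (Fin n)} :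
    B ∈ rl σ F ↔ B.map σ.symm.toEmbedding ∈ F := by
  unfold rl
  rw [mem_image]
  constructor
  · rintro ⟨A, hA, rfl⟩
    rw [map_map]
    have : σ.toEmbedding.trans σ.symm.toEmbedding = Function.Embedding.refl _ := by
      ext x; simp
    rw [this, map_refl]
    exact hA
  · intro h
    refine ⟨_, h, ?_⟩
    rw [map_map]
    have : σ.symm.toEmbedding.trans σ.toEmbedding = Function.Embedding.refl _ := by
      ext x; simp
    rw [this, map_refl]

theorem map_mem_rl {n : ℕ} {σ : Equiv.Perm (Fin n)} {F : Fam n} {B : Finset (Fin n)} :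
    B.map σ.toEmbedding ∈ rl σ F ↔ B ∈ F := by
  rw [mem_rl, map_map]
  have : σ.toEmbedding.trans σ.symm.toEmbedding = Function.Embedding.refl _ := by
    ext x; simp
  rw [this, map_refl]

theorem isBF_rl {n r : ℕ} {F : Fam n} (hF : IsBF r F) (σ : Equiv.Perm (Fin n)) : IsBF r (rl σ F) := by
  refine ⟨?_, ?_, ?_⟩
  · unfold rl
    exact hF.ne.image _
  · intro X hX
    rw [mem_rl] at hX
    have := hF.card _ hX
    rwa [card_map] at this
  · intro X hX Y hY x hx
    rw [mem_rl] at hX hY
    rw [Finset.mem_sdiff] at hx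
    obtain ⟨y, hy, h⟩ := hF.exch _ hX _ hY (σ.symm x) (by
      rw [Finset.mem_sdiff, mem_map_equiv, mem_map_equiv]
      simpa using hx)
    refine ⟨σ y, ?_, ?_⟩
    · rw [Finset.mem_sdiff, mem_map_equiv, mem_map_equiv] at hy
      rw [Finset.mem_sdiff]
      simpa using hy
    · rw [mem_rl]
      rw [map_insert, map_erase]
      simpa using h

theorem indep_rl {n : ℕ} {F : Fam n} (σ : Equiv.Perm (Fin n)) {I : Finset (Fin n)} :
    indep (rl σ F) (I.map σ.toEmbedding) ↔ indep F I := by
  constructor
  · rintro ⟨X, hX, hIX⟩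
    rw [mem_rl] at hX
    refine ⟨_, hX, fun x hx => ?_⟩
    rw [mem_map_equiv]
    have : σ x ∈ I.map σ.toEmbedding := mem_map_of_mem _ hx
    simpa using hIX this
  · rintro ⟨X, hX, hIX⟩
    exact ⟨_, map_mem_rl.2 hX, map_subset_map.2 hIX⟩

open Classical in
theorem numIndep_rl {n : ℕ} (F : Fam n) (σ : Equiv.Perm (Fin n)) (i : ℕ) :
    ((univ : Finset (Finset (Fin n))).filter (fun I => indep (rl σ F) I ∧ I.card = i)).card =
      ((univ : Finset (Finset (Fin n))).filter (fun I => indep F I ∧ I.card = i)).card := by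
  symm
  refine card_nbij' (fun I => I.map σ.toEmbedding) (fun I => I.map σ.symm.toEmbedding) ?_ ?_ ?_ ?_
  · intro I hI
    rw [mem_coe, mem_filter] at hI ⊢
    exact ⟨mem_univ _, (indep_rl σ).2 hI.2.1, by rw [card_map]; exact hI.2.2⟩
  · intro I hI
    rw [mem_coe, mem_filter] at hI ⊢
    refine ⟨mem_univ _, ?_, by rw [card_map]; exact hI.2.2⟩
    rw [← indep_rl σ, map_map]
    have : σ.symm.toEmbedding.trans σ.toEmbedding = Function.Embedding.refl _ := by
      ext x; simp
    rw [this, map_refl]
    exact hI.2.1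
  · intro I _
    simp only
    rw [map_map]
    have : σ.toEmbedding.trans σ.symm.toEmbedding = Function.Embedding.refl _ := by
      ext x; simp
    rw [this, map_refl]
  · intro I _
    simp only
    rw [map_map]
    have : σ.symm.toEmbedding.trans σ.toEmbedding = Function.Embedding.refl _ := by
      ext x; simp
    rw [this, map_refl]

/-- a permutation carrying `A` to the initial segment -/
theorem exists_perm {n i : ℕ} (hi : i ≤ n) (A : Finset (Fin n)) (hA : A.card = i) :
    ∃ σ : Equiv.Perm (Fin n), A.map σ.toEmbedding = seg n i := by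
  have hc : A.card = (seg n i).card := by rw [hA, seg_card hi]
  let e : {x // x ∈ A} ≃ {x // x ∈ seg n i} := Finset.equivOfCardEq hc
  refine ⟨e.extendSubtype, ?_⟩
  apply eq_of_subset_of_card_le
  · intro x hx
    rw [mem_map] at hx
    obtain ⟨a, ha, rfl⟩ := hx
    exact e.extendSubtype_mem a ha
  · rw [card_map, hc]

open Classical in
/-- the relabelled family has few nonbases containing the first `i` elements -/
theorem exists_rl {n r i : ℕ} (hi : i ≤ n) (F : Fam n) :
    ∃ σ : Equiv.Perm (Fin n),
      (((powersetCard r (univ : Finset (Fin n))) \ rl σ F).filter (fun X => seg n i ⊆ X)).card *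
        n.choose i ≤ ((powersetCard r (univ : Finset (Fin n))) \ F).card * r.choose i := by
  obtain ⟨A, hA, h⟩ := avg (n := n) (r := r) (i := i) hi ((powersetCard r (univ : Finset (Fin n))) \ F)
    (fun X hX => (mem_powersetCard.1 (Finset.mem_sdiff.1 hX).1).2)
  obtain ⟨σ, hσ⟩ := exists_perm hi A hA
  refine ⟨σ, le_trans (Nat.mul_le_mul_right _ ?_) h⟩
  refine card_le_card_of_injOn (fun X => X.map σ.symm.toEmbedding) ?_ ?_
  · intro X hX
    rw [mem_coe, mem_filter, Finset.mem_sdiff, mem_powersetCard] at hX ⊢
    obtain ⟨⟨⟨-, h1⟩, h2⟩, h3⟩ := hX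
    refine ⟨⟨⟨subset_univ _, by rw [card_map]; exact h1⟩, fun h => h2 (mem_rl.2 h)⟩, ?_⟩
    intro a ha
    rw [mem_map_equiv]
    apply h3
    rw [← hσ]
    simpa using ha
  · intro X _ Y _ h
    exact map_injective _ h

end Pool.Agent.N353.HVec
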