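import Pool.Agent.N353.HVec.Upper
import Pool.Agent.N353.HVec.Lower

set_option autoImplicit false

namespace Pool.Agent.N353.HVec

open Finset Pool.Agent.Helper46.A Pool.Agent.N353.Roots Polynomial

open Classical in
/-- the `h`-polynomial in terms of internal activities -/
theorem poly_act {n r : ℕ} {F : Fam n} (hF : IsBF r F) :
    ∑ I ∈ (univ : Finset (Finset (Fin n))).filter (fun I => indep F I),
      (X : ℤ[X]) ^ I.card * (1 - X) ^ (r - I.card) =
      ∑ B ∈ F, (X : ℤ[X]) ^ (r - (act F B).card) := by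
  have h1 : ∀ B ∈ F, (X : ℤ[X]) ^ (r - (act F B).card) =
      ∑ S ∈ (act F B).powerset, (X : ℤ[X]) ^ (r - S.card) * (1 - X) ^ S.card := by
    intro B hB
    have h2 : ∑ S ∈ (act F B).powerset, (1 - (X : ℤ[X])) ^ S.card * X ^ ((act F B).card - S.card)
        = 1 := by
      rw [sum_pow_mul_eq_add_pow, sub_add_cancel, one_pow]
    have hac : (act F B).card ≤ r := by
      rw [← hF.card B hB]; exact card_le_card act_subset
    calc (X : ℤ[X]) ^ (r - (act F B).card)
        = X ^ (r - (act F B).card) * ∑ S ∈ (act F B).powerset,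
            (1 - (X : ℤ[X])) ^ S.card * X ^ ((act F B).card - S.card) := by rw [h2, mul_one]
      _ = _ := by
        rw [mul_sum]
        apply sum_congr rfl
        intro S hS
        have hSc := card_le_card (mem_powerset.1 hS)
        have e : r - S.card = (r - (act F B).card) + ((act F B).card - S.card) := by omega
        rw [e, pow_add]
        ring
  rw [sum_congr rfl h1, sum_sigma']
  symm
  refine sum_bij (fun p _ => p.1 \ p.2) ?_ ?_ ?_ ?_
  · rintro ⟨B, S⟩ hp
    rw [mem_sigma, mem_powerset] at hp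
    rw [mem_filter]
    exact ⟨mem_univ _, B, hp.1, sdiff_subset⟩
  · rintro ⟨B, S⟩ hp ⟨B', S'⟩ hp' heq
    rw [mem_sigma, mem_powerset] at hp hp'
    simp only at hp hp' heq
    have hSB : S ⊆ B := hp.2.trans act_subset
    have hSB' : S' ⊆ B' := hp'.2.trans act_subset
    have e1 : B = B' := by
      refine act_unique hF (I := B \ S) hp.1 hp'.1 sdiff_subset (heq ▸ sdiff_subset) ?_ ?_
      · rw [Finset.sdiff_sdiff_eq_self hSB]; exact hp.2
      · rw [heq, Finset.sdiff_sdiff_eq_self hSB']; exact hp'.2
    subst e1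
    have e2 : S = S' := by
      rw [← Finset.sdiff_sdiff_eq_self hSB, ← Finset.sdiff_sdiff_eq_self hSB', heq]
    subst e2
    rfl
  · intro I hI
    rw [mem_filter] at hI
    obtain ⟨B, hB, hIB, hact⟩ := act_exists hI.2
    refine ⟨⟨B, B \ I⟩, ?_, ?_⟩
    · rw [mem_sigma, mem_powerset]
      exact ⟨hB, hact⟩
    · exact Finset.sdiff_sdiff_eq_self hIB
  · rintro ⟨B, S⟩ hp
    rw [mem_sigma, mem_powerset] at hp
    simp only at hp ⊢
    have hSB : S ⊆ B := hp.2.trans act_subset
    rw [card_sdiff_of_subset hSB, hF.card B hp.1]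
    congr 2
    have := card_le_card hSB
    rw [hF.card B hp.1] at this
    omega

open Classical in
/-- the polynomial `∑ F_i x^i (1 - x)^(r - i)` -/
theorem poly_num {n r : ℕ} {F : Fam n} (hF : IsBF r F) :
    ∑ i ∈ range (r + 1),
      C ((((univ : Finset (Finset (Fin n))).filter (fun I => indep F I ∧ I.card = i)).card : ℕ) : ℤ) *
        (X : ℤ[X]) ^ i * (1 - X) ^ (r - i) =
      ∑ B ∈ F, (X : ℤ[X]) ^ (r - (act F B).card) := by
  rw [← poly_act hF]
  have h1 := sum_fiberwise_of_maps_to
    (s := (univ : Finset (Finset (Fin n))).filter (fun I => indep F I)) (t := range (r + 1))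
    (g := card) (fun Y hY => by
      rw [mem_filter] at hY
      obtain ⟨-, Z, hZ, hYZ⟩ := hY
      rw [mem_range]
      have := card_le_card hYZ
      rw [hF.card Z hZ] at this
      omega)
    (fun I => (X : ℤ[X]) ^ I.card * (1 - X) ^ (r - I.card))
  rw [← h1]
  apply sum_congr rfl
  intro i _
  rw [sum_congr rfl (g := fun _ => (X : ℤ[X]) ^ i * (1 - X) ^ (r - i))
    (fun Y hY => by rw [(mem_filter.1 hY).2]), sum_const, nsmul_eq_mul, mul_assoc, filter_filter]
  congr 1

/-- the coefficients count bases by internal activity -/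
theorem coeff_act {n r : ℕ} {F : Fam n} (hF : IsBF r F) {k : ℕ} (hk : k ≤ r) :
    (∑ B ∈ F, (X : ℤ[X]) ^ (r - (act F B).card)).coeff k =
      ((F.filter (fun B => (act F B).card = r - k)).card : ℤ) := by
  rw [finsetSum_coeff]
  simp only [coeff_X_pow]
  rw [card_filter]
  push_cast
  apply sum_congr rfl
  intro B hB
  have hac : (act F B).card ≤ r := by
    rw [← hF.card B hB]; exact card_le_card act_subset
  by_cases h : (act F B).card = r - k
  · rw [if_pos h, if_pos (by omega)]
  · rw [if_neg h, if_neg (by omega)]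

open Classical in
theorem count_rl {n r : ℕ} {F : Fam n} (hF : IsBF r F) (σ : Equiv.Perm (Fin n)) {i : ℕ}
    (hi : i ≤ r) :
    ((rl σ F).filter (fun B => (act (rl σ F) B).card = i)).card =
      (F.filter (fun B => (act F B).card = i)).card := by
  have h1 := coeff_act hF (k := r - i) (by omega)
  have h2 := coeff_act (isBF_rl hF σ) (k := r - i) (by omega)
  rw [← poly_num hF] at h1
  rw [← poly_num (isBF_rl hF σ)] at h2
  simp only [numIndep_rl] at h2
  rw [h1] at h2
  have e : r - (r - i) = i := by omega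
  rw [e] at h2
  exact_mod_cast h2.symm

end Pool.Agent.N353.HVec
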