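import Pool.Agent.N353.Roots.Count

set_option autoImplicit false

namespace Pool.Agent.N353.HVec

open Finset Pool.Agent.Helper46.A Pool.Agent.N353.Roots

/-- the entries of the H-vector of the uniform matroid -/
def bd (m r j : ℕ) : ℕ := if j = 0 then 1 else (m - r + j - 1).choose j

theorem bd_mono {m r j : ℕ} : bd m r j ≤ bd (m + 1) r j := by
  unfold bd
  split_ifs
  · exact le_rfl
  · apply Nat.choose_le_choose
    omega

theorem bd_add {m r j : ℕ} (hr : r ≤ m) (h0 : 0 < r) (hj : 0 < j) :
    bd m r j + bd m (r - 1) (j - 1) ≤ bd (m + 1) r j := by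
  unfold bd
  have h1 : j ≠ 0 := hj.ne'
  rw [if_neg h1, if_neg h1]
  split_ifs with h2
  · have h3 : j = 1 := by omega
    subst h3
    simp only [Nat.add_sub_cancel, Nat.choose_one_right]
    omega
  · obtain ⟨i, rfl⟩ : ∃ i, j = i + 1 := ⟨j - 1, by omega⟩
    have e1 : m - (r - 1) + (i + 1 - 1) - 1 = m - r + i := by omega
    have e2 : m - r + (i + 1) - 1 = m - r + i := by omega
    have e3 : m + 1 - r + (i + 1) - 1 = (m - r + i) + 1 := by omega
    rw [e1, e2, e3, Nat.add_sub_cancel, Nat.choose_succ_succ, Nat.add_comm]

theorem bd_coloop {m r j : ℕ} (h0 : 0 < r) : bd m (r - 1) j = bd (m + 1) r j := by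
  unfold bd
  have e : m - (r - 1) = m + 1 - r := by omega
  rw [e]

/-- the sets avoiding `e` -/
def del {n : ℕ} (F : Fam n) (e : Fin n) : Fam n := F.filter (fun B => e ∉ B)

/-- the sets containing `e`, without `e` -/
def con {n : ℕ} (F : Fam n) (e : Fin n) : Fam n := (F.filter (fun B => e ∈ B)).image (fun B => B.erase e)

theorem mem_del {n : ℕ} {F : Fam n} {e : Fin n} {B : Finset (Fin n)} :
    B ∈ del F e ↔ B ∈ F ∧ e ∉ B := by unfold del; rw [mem_filter]

theorem mem_con {n : ℕ} {F : Fam n} {e : Fin n} {B : Finset (Fin n)} :
    B ∈ con F e ↔ insert e B ∈ F ∧ e ∉ B := by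
  unfold con
  rw [mem_image]
  constructor
  · rintro ⟨A, hA, rfl⟩
    rw [mem_filter] at hA
    rw [insert_erase hA.2]
    exact ⟨hA.1, notMem_erase _ _⟩
  · rintro ⟨h1, h2⟩
    exact ⟨insert e B, mem_filter.2 ⟨h1, mem_insert_self _ _⟩, erase_insert h2⟩

theorem act_del {n m : ℕ} {F : Fam n} {e : Fin n} (he : e.val = m) {B : Finset (Fin n)}
    (hB : B ⊆ seg n m) : act (del F e) B = act F B := by
  ext b
  rw [mem_act, mem_act]
  apply and_congr_right
  intro hb
  have hbm : b.val < m := by
    have := hB hb
    unfold seg at this
    exact (mem_filter.1 this).2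
  apply forall_congr'
  intro x
  apply forall_congr'
  intro hx
  apply forall_congr'
  intro _
  have hx' : x.val < b.val := hx
  rw [mem_del, not_and, not_not]
  constructor
  · intro h hF
    have h1 := h hF
    rw [mem_insert, mem_erase] at h1
    rcases h1 with h1 | ⟨-, h1⟩
    · rw [← h1] at hx'; omega
    · have := hB h1
      unfold seg at this
      have := (mem_filter.1 this).2
      omega
  · intro h hF
    exact absurd hF h

theorem act_con {n m : ℕ} {F : Fam n} {e : Fin n} (he : e.val = m) {B : Finset (Fin n)}
    (hB : B ⊆ seg n m) : act (con F e) B = (act F (insert e B)).erase e := by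
  have heB : e ∉ B := fun h => by
    have := hB h
    unfold seg at this
    have := (mem_filter.1 this).2
    omega
  ext b
  rw [mem_erase, mem_act, mem_act]
  constructor
  · rintro ⟨hb, h⟩
    have hbe : b ≠ e := fun h => heB (h ▸ hb)
    have hbm : b.val < m := by
      have := hB hb
      unfold seg at this
      exact (mem_filter.1 this).2
    refine ⟨hbe, mem_insert_of_mem hb, fun x hx hxB hF => ?_⟩
    have hx' : x.val < b.val := hx
    rw [mem_insert, not_or] at hxB
    apply h x hx hxB.2
    rw [mem_con]
    have e1 : insert e (insert x (B.erase b)) = insert x ((insert e B).erase b) := by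
      rw [Finset.insert_comm, erase_insert_of_ne hbe.symm]
    rw [e1]
    refine ⟨hF, ?_⟩
    rw [mem_insert, mem_erase, not_or]
    exact ⟨fun h => hxB.1 h.symm, fun h => heB h.2⟩
  · rintro ⟨hbe, hb, h⟩
    have hb' : b ∈ B := by
      rcases mem_insert.1 hb with h | h
      · exact absurd h hbe
      · exact h
    have hbm : b.val < m := by
      have := hB hb'
      unfold seg at this
      exact (mem_filter.1 this).2
    refine ⟨hb', fun x hx hxB hF => ?_⟩
    have hx' : x.val < b.val := hx
    have hxe : x ≠ e := fun h => by rw [h] at hx'; omega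
    rw [mem_con] at hF
    have e1 : insert e (insert x (B.erase b)) = insert x ((insert e B).erase b) := by
      rw [Finset.insert_comm, erase_insert_of_ne hbe.symm]
    rw [e1] at hF
    exact h x hx (by rw [mem_insert, not_or]; exact ⟨hxe, hxB⟩) hF.1

/-- the number of bases with given internal activity is at most the number for the uniform
matroid -/
theorem upper {n : ℕ} (m : ℕ) : ∀ (r : ℕ) (F : Fam n), m ≤ n → (∀ B ∈ F, B ⊆ seg n m) →
    (∀ B ∈ F, B.card = r) →
    (∀ X ∈ F, ∀ Y ∈ F, ∀ x ∈ X \ Y, ∃ y ∈ Y \ X, insert y (X.erase x) ∈ F) → ∀ j,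
    (F.filter (fun B => (act F B).card + j = r)).card ≤ bd m r j := by
  induction m with
  | zero =>
    intro r F _ hseg hcard _ j
    have h0 : ∀ B ∈ F, B = ∅ := by
      intro B hB
      apply subset_empty.1
      intro x hx
      have := hseg B hB hx
      unfold seg at this
      have := (mem_filter.1 this).2
      omega
    by_cases hj : j = 0
    · subst hj
      unfold bd
      rw [if_pos rfl]
      rw [card_le_one]
      intro a ha b hb
      rw [h0 a (mem_filter.1 ha).1, h0 b (mem_filter.1 hb).1]
    · have : F.filter (fun B => (act F B).card + j = r) = ∅ := by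
        rw [filter_eq_empty_iff]
        intro B hB h
        have h1 := hcard B hB
        rw [h0 B hB, card_empty] at h1
        omega
      rw [this, card_empty]
      exact Nat.zero_le _
  | succ m ih =>
    intro r F hm hseg hcard hex j
    obtain ⟨e, he⟩ : ∃ e : Fin n, e.val = m := ⟨⟨m, by omega⟩, rfl⟩
    have hsegD : ∀ B ∈ F, e ∉ B → B ⊆ seg n m := by
      intro B hB heB x hx
      have := hseg B hB hx
      unfold seg at this ⊢
      have h1 := (mem_filter.1 this).2
      rw [mem_filter]
      refine ⟨mem_univ _, ?_⟩
      have : x ≠ e := fun h => heB (h ▸ hx)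
      have : x.val ≠ e.val := fun h => this (Fin.ext h)
      omega
    have hsegC : ∀ B ∈ con F e, B ⊆ seg n m := by
      intro B hB x hx
      rw [mem_con] at hB
      have := hseg _ hB.1 (mem_insert_of_mem hx)
      unfold seg at this ⊢
      have h1 := (mem_filter.1 this).2
      rw [mem_filter]
      refine ⟨mem_univ _, ?_⟩
      have : x ≠ e := fun h => hB.2 (h ▸ hx)
      have : x.val ≠ e.val := fun h => this (Fin.ext h)
      omega
    have hexD : ∀ X ∈ del F e, ∀ Y ∈ del F e, ∀ x ∈ X \ Y, ∃ y ∈ Y \ X,
        insert y (X.erase x) ∈ del F e := by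
      intro X hX Y hY x hx
      rw [mem_del] at hX hY
      obtain ⟨y, hy, h⟩ := hex X hX.1 Y hY.1 x hx
      refine ⟨y, hy, ?_⟩
      rw [mem_del]
      refine ⟨h, ?_⟩
      rw [mem_insert, mem_erase, not_or]
      refine ⟨fun h => ?_, fun h => hX.2 h.2⟩
      rw [← h, Finset.mem_sdiff] at hy
      exact hY.2 hy.1
    have hexC : ∀ X ∈ con F e, ∀ Y ∈ con F e, ∀ x ∈ X \ Y, ∃ y ∈ Y \ X,
        insert y (X.erase x) ∈ con F e := by
      intro X hX Y hY x hx
      rw [mem_con] at hX hY
      rw [Finset.mem_sdiff] at hx
      have hxe : x ≠ e := fun h => hX.2 (h ▸ hx.1)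
      obtain ⟨y, hy, h⟩ := hex _ hX.1 _ hY.1 x (by
        rw [Finset.mem_sdiff, mem_insert, mem_insert]
        exact ⟨Or.inr hx.1, fun h => h.elim (fun h => hxe h) hx.2⟩)
      rw [Finset.mem_sdiff, mem_insert, mem_insert, not_or] at hy
      have hyY : y ∈ Y := hy.1.resolve_left hy.2.1
      refine ⟨y, Finset.mem_sdiff.2 ⟨hyY, hy.2.2⟩, ?_⟩
      rw [mem_con]
      have e1 : insert e (insert y (X.erase x)) = insert y ((insert e X).erase x) := by
        rw [Finset.insert_comm, erase_insert_of_ne hxe.symm]
      rw [e1]
      refine ⟨h, ?_⟩
      rw [mem_insert, mem_erase, not_or]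
      exact ⟨fun h => hy.2.1 h.symm, fun h => hX.2 h.2⟩
    have hcC : ∀ B ∈ con F e, B.card + 1 = r := by
      intro B hB
      rw [mem_con] at hB
      have := hcard _ hB.1
      rw [card_insert_of_notMem hB.2] at this
      exact this
    -- the bases avoiding `e`
    have hD : (F.filter (fun B => (act F B).card + j = r ∧ e ∉ B)).card =
        ((del F e).filter (fun B => (act (del F e) B).card + j = r)).card := by
      congr 1
      ext B
      rw [mem_filter, mem_filter, mem_del]
      constructor
      · rintro ⟨h1, h2, h3⟩
        refine ⟨⟨h1, h3⟩, ?_⟩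
        rw [act_del he (hsegD B h1 h3)]
        exact h2
      · rintro ⟨⟨h1, h3⟩, h2⟩
        rw [act_del he (hsegD B h1 h3)] at h2
        exact ⟨h1, h2, h3⟩
    have hsplit : (F.filter (fun B => (act F B).card + j = r)).card =
        (F.filter (fun B => (act F B).card + j = r ∧ e ∉ B)).card +
          (F.filter (fun B => (act F B).card + j = r ∧ e ∈ B)).card := by
      rw [← card_filter_add_card_filter_not (s := F.filter (fun B => (act F B).card + j = r))
        (fun B => e ∉ B), filter_filter, filter_filter]
      simp only [not_not]
    rcases eq_empty_or_nonempty (del F e) with hD0 | hDne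
    · -- `e` is in all bases
      have hall : ∀ B ∈ F, e ∈ B := by
        intro B hB
        by_contra h
        have : B ∈ del F e := mem_del.2 ⟨hB, h⟩
        rw [hD0] at this
        exact notMem_empty _ this
      rcases eq_empty_or_nonempty F with hF0 | ⟨B0, hB0⟩
      · rw [hF0, filter_empty, card_empty]
        exact Nat.zero_le _
      have hr0 : 0 < r := by
        rw [← hcard B0 hB0]
        exact card_pos.2 ⟨e, hall B0 hB0⟩
      rw [← bd_coloop hr0]
      refine le_trans (le_of_eq ?_) (ih (r - 1) (con F e) (by omega) hsegC
        (fun B hB => by have := hcC B hB; omega) hexC j)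
      refine card_nbij' (fun B => B.erase e) (fun B => insert e B) ?_ ?_ ?_ ?_
      · intro B hB
        rw [mem_coe, mem_filter] at hB
        have heB := hall B hB.1
        have hmem : B.erase e ∈ con F e := by
          rw [mem_con, insert_erase heB]
          exact ⟨hB.1, notMem_erase _ _⟩
        rw [mem_coe, mem_filter]
        refine ⟨hmem, ?_⟩
        rw [act_con he (hsegC _ hmem), insert_erase heB]
        have hea : e ∈ act F B := by
          rw [mem_act]
          refine ⟨heB, fun x _ hx h => ?_⟩
          have := hall _ h
          rw [mem_insert, mem_erase] at this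
          rcases this with h | h
          · exact hx (h ▸ heB)
          · exact h.1 rfl
        rw [card_erase_of_mem hea]
        have := card_pos.2 ⟨e, hea⟩
        omega
      · intro B hB
        rw [mem_coe, mem_filter] at hB
        have hB1 := mem_con.1 hB.1
        rw [mem_coe, mem_filter]
        refine ⟨hB1.1, ?_⟩
        show (act F (insert e B)).card + j = r
        have h2 := hB.2
        rw [act_con he (hsegC _ hB.1)] at h2
        have hea : e ∈ act F (insert e B) := by
          rw [mem_act]
          refine ⟨mem_insert_self _ _, fun x _ hx h => ?_⟩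
          have := hall _ h
          rw [mem_insert, mem_erase] at this
          rcases this with h | h
          · exact hx (h ▸ mem_insert_self _ _)
          · exact h.1 rfl
        rw [card_erase_of_mem hea] at h2
        have := card_pos.2 ⟨e, hea⟩
        omega
      · intro B hB
        rw [mem_coe, mem_filter] at hB
        exact insert_erase (hall B hB.1)
      · intro B hB
        rw [mem_coe, mem_filter] at hB
        exact erase_insert (mem_con.1 hB.1).2
    · have hDle := ih r (del F e) (by omega) (fun B hB => hsegD B (mem_del.1 hB).1 (mem_del.1 hB).2)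
        (fun B hB => hcard B (mem_del.1 hB).1) hexD j
      rw [← hD] at hDle
      have hrm : r ≤ m := by
        obtain ⟨B, hB⟩ := hDne
        rw [mem_del] at hB
        rw [← hcard B hB.1, ← seg_card (n := n) (i := m) (by omega)]
        exact card_le_card (hsegD B hB.1 hB.2)
      -- no base containing `e` has `e` active
      have hna : ∀ B ∈ F, e ∈ B → e ∉ act F B := by
        intro B hB heB hact
        obtain ⟨Y, hY⟩ := hDne
        rw [mem_del] at hY
        obtain ⟨y, hy, h⟩ := hex B hB Y hY.1 e (Finset.mem_sdiff.2 ⟨heB, hY.2⟩)
        rw [Finset.mem_sdiff] at hy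
        refine (mem_act.1 hact).2 y ?_ hy.2 h
        have := hsegD Y hY.1 hY.2 hy.1
        unfold seg at this
        have := (mem_filter.1 this).2
        show y.val < e.val
        omega
      rw [hsplit]
      by_cases hj : j = 0
      · subst hj
        have h2 : (F.filter (fun B => (act F B).card + 0 = r ∧ e ∈ B)) = ∅ := by
          rw [filter_eq_empty_iff]
          rintro B hB ⟨h1, h2⟩
          have h3 : act F B ⊆ B.erase e := by
            intro x hx
            rw [mem_erase]
            exact ⟨fun h => hna B hB h2 (h ▸ hx), act_subset hx⟩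
          have h4 := card_le_card h3
          rw [card_erase_of_mem h2, hcard B hB] at h4
          have : 0 < r := by
            rw [← hcard B hB]
            exact card_pos.2 ⟨e, h2⟩
          omega
        rw [h2, card_empty, add_zero]
        exact hDle.trans bd_mono
      · rcases eq_empty_or_nonempty (F.filter (fun B => (act F B).card + j = r ∧ e ∈ B)) with h0 | ⟨B0, hB0⟩
        · rw [h0, card_empty, add_zero]
          exact hDle.trans bd_mono
        rw [mem_filter] at hB0
        have hr0 : 0 < r := by
          rw [← hcard B0 hB0.1]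
          exact card_pos.2 ⟨e, hB0.2.2⟩
        have hCle := ih (r - 1) (con F e) (by omega) hsegC
          (fun B hB => by have := hcC B hB; omega) hexC (j - 1)
        have hC : (F.filter (fun B => (act F B).card + j = r ∧ e ∈ B)).card ≤
            ((con F e).filter (fun B => (act (con F e) B).card + (j - 1) = r - 1)).card := by
          refine card_le_card_of_injOn (fun B => B.erase e) ?_ ?_
          · intro B hB
            rw [mem_coe, mem_filter] at hB
            have hmem : B.erase e ∈ con F e := by
              rw [mem_con, insert_erase hB.2.2]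
              exact ⟨hB.1, notMem_erase _ _⟩
            rw [mem_coe, mem_filter]
            refine ⟨hmem, ?_⟩
            rw [act_con he (hsegC _ hmem), insert_erase hB.2.2,
              erase_eq_of_notMem (hna B hB.1 hB.2.2)]
            omega
          · intro B hB B' hB' h
            rw [mem_coe, mem_filter] at hB hB'
            simp only at h
            rw [← insert_erase hB.2.2, h, insert_erase hB'.2.2]
        have := bd_add (m := m) (r := r) (j := j) hrm hr0 (by omega)
        omega

end Pool.Agent.N353.HVec
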